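import Pool.Agent.U84.AWQ.Stm
import Pool.Agent.R456.CL.Inf2

/-!
# Project AWQ, package INF2: halving of properly infinite projections

`inf2_el` is the element form of `Pool.Agent.R456.CL.Inf2.inf2`.
-/

set_option autoImplicit false

namespace Pool.Agent.U139.AWQ

open Pool.Agent.R456.CL Pool.Agent.U84.AWQ Pool.Agent.R456.CL.Inf2

universe u

section

variable {A : Type u} [CStarAlgebra A]

theorem inf2_el (hP : PSup A) (hA : PAddO A) (g : A) (hg : PJ g)
    (hI : ∃ (ι : Type u) (q : ι → A) (E : A), Infinite ι ∧ (∀ i, PJ (q i)) ∧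
      (∀ i j, i ≠ j → q i * q j = 0) ∧ (∀ i, Le (q i) g) ∧ (∀ i j, Eqv (q i) (q j)) ∧
      IsSup q E ∧ ∀ i, Sub (g - E) (q i)) :
    ∃ g1 g2 : A, PJ g1 ∧ PJ g2 ∧ g1 * g2 = 0 ∧ Le g1 g ∧ Le g2 g ∧ Eqv g g1 ∧ Eqv g g2 := by
  obtain ⟨ι, q, E, hι, hq, ho, hle, heqv, hE, hsub⟩ := hI
  obtain ⟨e⟩ : Nonempty (ι ⊕ ι ≃ ι) := by
    rw [← Cardinal.eq, Cardinal.mk_sum, Cardinal.lift_id]
    exact Cardinal.add_eq_self (Cardinal.aleph0_le_mk ι)
  obtain ⟨e1⟩ : Nonempty (PUnit.{u + 1} ⊕ ι ≃ ι) := by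
    rw [← Cardinal.eq, Cardinal.mk_sum, Cardinal.lift_id, Cardinal.lift_id, Cardinal.mk_punit]
    exact Cardinal.add_eq_right (Cardinal.aleph0_le_mk ι)
      (Cardinal.one_lt_aleph0.le.trans (Cardinal.aleph0_le_mk ι))
  have hEg : E * g = E := sup_le hq hE hg hle
  have hgE := le_symm hE.1 hg hEg
  have hr : PJ (g - E) := by
    refine mk ?_ (by rw [star_sub, sa hg, sa hE.1])
    rw [sub_mul, mul_sub, mul_sub, idem hg, idem hE.1, hEg, hgE]
    abel
  have hrE : (g - E) * E = 0 := by rw [sub_mul, hgE, idem hE.1, sub_self]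
  -- the four injections
  let f4 : Fin 4 → ι → ι := ![fun i => e (Sum.inl (e (Sum.inl i))),
    fun i => e (Sum.inl (e (Sum.inr i))), fun i => e (Sum.inr (e (Sum.inl i))),
    fun i => e (Sum.inr (e (Sum.inr i)))]
  have hinj : ∀ c, Function.Injective (f4 c) := by
    intro c i j h
    fin_cases c <;> simpa [f4] using h
  have hdisj : ∀ c d i j, c ≠ d → f4 c i ≠ f4 d j := by
    intro c d i j hcd h
    fin_cases c <;> fin_cases d <;> simp [f4] at h hcd
  let Q : Fin 4 → ι → A := fun c i => q (f4 c i)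
  have hQ : ∀ c i, PJ (Q c i) := fun c i => hq _
  choose G hG using fun c => hP ι (Q c) (hQ c)
  have hQo : ∀ c i j, i ≠ j → Q c i * Q c j = 0 := fun c i j hij =>
    ho _ _ (fun h => hij (hinj c h))
  have hQo2 : ∀ c d i j, c ≠ d → Q c i * Q d j = 0 := fun c d i j hcd =>
    ho _ _ (hdisj c d i j hcd)
  have hrq : ∀ i, (g - E) * q i = 0 := by
    intro i
    rw [← le_symm (hq i) hE.1 (hE.2.1 i), ← mul_assoc, hrE, zero_mul]
  have heq' : ∀ i j, Sub (q i) (q j) := by
    intro i j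
    obtain ⟨v, hv1, hv2⟩ := heqv i j
    exact ⟨v, hv1, by rw [hv2, idem (hq j)]⟩
  have hGo : ∀ x y, x ≠ y → G x * G y = 0 := fun x y hxy =>
    sup_orth (hQ x) (hQ y) (hG x) (hG y) (fun i j => hQo2 x y i j hxy)
  -- total sup
  have hsum : G 0 + G 1 + (G 2 + G 3) = E := by
    have h1 := sup_sum (sup_sum (hG 0) (hG 1) (hGo 0 1 (by decide)))
      (sup_sum (hG 2) (hG 3) (hGo 2 3 (by decide))) (by
        rw [add_mul, mul_add, mul_add, hGo 0 2 (by decide), hGo 0 3 (by decide),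
          hGo 1 2 (by decide), hGo 1 3 (by decide)]
        simp)
    have h2 := sup_comp (((Equiv.sumCongr e e).trans e)) hE
    refine sup_unique (e := fun k => q (((Equiv.sumCongr e e).trans e) k)) (fun k => hq _) ?_ h2
    convert h1 using 1
    funext k
    rcases k with (k | k) | (k | k) <;> rfl
  have hg4 : g = (g - E) + (G 2 + G 3) + (G 0 + G 1) := by
    rw [← hsum]; abel
  have hg4' : g = (g - E) + (G 0 + G 1) + (G 2 + G 3) := by
    rw [← hsum]; abel
  have k1 := key hP hA e e1 Q G (g - E) hr hQ hQo hQo2 (fun c i => hrq _) hG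
    (fun c d i j => heq' _ _) (fun c i => hsub _) 0 1 2 3 (by decide) (by decide) (by decide)
    (by decide) (by decide) (by decide)
  have k2 := key hP hA e e1 Q G (g - E) hr hQ hQo hQo2 (fun c i => hrq _) hG
    (fun c d i j => heq' _ _) (fun c i => hsub _) 2 3 0 1 (by decide) (by decide) (by decide)
    (by decide) (by decide) (by decide)
  rw [← hg4] at k1
  rw [← hg4'] at k2
  obtain ⟨v, hv1, hv2⟩ := k1
  obtain ⟨w, hw1, hw2⟩ := k2
  have hP01 := pj_add (hG 0).1 (hG 1).1 (hGo 0 1 (by decide))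
  have hP23 := pj_add (hG 2).1 (hG 3).1 (hGo 2 3 (by decide))
  have hGg : ∀ c, G c * g = G c := fun c => sup_le (hQ c) (hG c) hg (fun i => hle _)
  have h01g : (G 0 + G 1) * g = G 0 + G 1 := by rw [add_mul, hGg, hGg]
  have h23g : (G 2 + G 3) * g = G 2 + G 3 := by rw [add_mul, hGg, hGg]
  have h0123 : (G 0 + G 1) * (G 2 + G 3) = 0 := by
    rw [add_mul, mul_add, mul_add, hGo 0 2 (by decide), hGo 0 3 (by decide),
      hGo 1 2 (by decide), hGo 1 3 (by decide)]
    simp
  have hpv := final_pj hg hv1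
  have hpw := final_pj hg hw1
  refine ⟨v * star v, w * star w, hpv, hpw, ?_, ?_, ?_, ⟨v, hv1, rfl⟩, ⟨w, hw1, rfl⟩⟩
  · calc v * star v * (w * star w)
        = (v * star v * (G 0 + G 1)) * ((G 2 + G 3) * (w * star w)) := by
          rw [hv2, le_symm hpw hP23 hw2]
      _ = v * star v * ((G 0 + G 1) * (G 2 + G 3)) * (w * star w) := by noncomm_ring
      _ = 0 := by rw [h0123]; simp
  · change v * star v * g = v * star v
    rw [← hv2, mul_assoc, h01g]
  · change w * star w * g = w * star w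
    rw [← hw2, mul_assoc, h23g]

theorem cp_one : CP (1 : A) := ⟨⟨one_mul 1, star_one A⟩, fun x => by rw [one_mul, mul_one]⟩

theorem cp_mul {z w : A} (hz : CP z) (hw : CP w) : CP (z * w) := by
  refine ⟨mk ?_ ?_, fun x => ?_⟩
  · calc z * w * (z * w) = z * (w * z) * w := by noncomm_ring
      _ = z * (z * w) * w := by rw [hw.2 z]
      _ = (z * z) * (w * w) := by noncomm_ring
      _ = z * w := by rw [idem hz.1, idem hw.1]
  · rw [star_mul, sa hz.1, sa hw.1, hw.2 z]
  · rw [mul_assoc, hw.2 x, ← mul_assoc, hz.2 x, mul_assoc]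

theorem cp_pj {z g : A} (hz : CP z) (hg : PJ g) : PJ (z * g) := by
  refine mk ?_ ?_
  · calc z * g * (z * g) = z * (g * z) * g := by noncomm_ring
      _ = z * (z * g) * g := by rw [hz.2 g]
      _ = (z * z) * (g * g) := by noncomm_ring
      _ = z * g := by rw [idem hz.1, idem hg]
  · rw [star_mul, sa hz.1, sa hg, hz.2 g]

theorem pi_cut {z g : A} (hz : CP z) (hg : PI g) : PI (z * g) := by
  refine ⟨cp_pj hz hg.1, fun w hw h => ?_⟩
  rw [← mul_assoc] at h ⊢
  exact hg.2 _ (cp_mul hw hz) h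

theorem norm_le_one {v p : A} (hp : PJ p) (hv : star v * v = p) : ‖v‖ ≤ 1 := by
  have h1 : ‖p‖ ≤ 1 := by
    have h2 : ‖p‖ * ‖p‖ = ‖p‖ := by
      have := CStarRing.norm_star_mul_self (x := p)
      rw [sa hp, idem hp] at this
      exact this.symm
    by_contra hcon
    push Not at hcon
    nlinarith
  have h3 : ‖v‖ * ‖v‖ = ‖p‖ := by
    rw [← hv]
    exact (CStarRing.norm_star_mul_self (x := v)).symm
  have h4 := norm_nonneg v
  nlinarith

/-- two copies over the central projection `z` -/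
def Two (g z : A) : Prop := ∃ v1 v2 : A, g * z * v1 = v1 ∧ g * z * v2 = v2 ∧
  star v1 * v1 = z * g ∧ star v2 * v2 = z * g ∧ star v1 * v2 = 0

theorem two_local (hP : PSup A) (hA : PAddO A) (hI : PInf1L A) {g : A} (hg : PI g) (z : A)
    (hz : CP z) (hz0 : z ≠ 0) : ∃ z' : A, CP z' ∧ z' ≠ 0 ∧ z' * z = z' ∧ Two g z' := by
  by_cases h0 : z * g = 0
  · refine ⟨z, hz, hz0, idem hz.1, 0, 0, by simp, by simp, ?_, ?_, by simp⟩
    · rw [h0]; simp
    · rw [h0]; simp
  obtain ⟨z1, hz1, hne, hfam⟩ := hI (z * g) (pi_cut hz hg) h0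
  have hpj : PJ (z1 * (z * g)) := cp_pj hz1 (cp_pj hz hg.1)
  obtain ⟨g1, g2, p1, p2, ho, l1, l2, ⟨v1, a1, b1⟩, ⟨v2, a2, b2⟩⟩ :=
    inf2_el hP hA (z1 * (z * g)) hpj hfam
  have hc : CP (z1 * z) := cp_mul hz1 hz
  have hgz : g * (z1 * z) = z1 * (z * g) := by rw [← hc.2 g, mul_assoc]
  have c1 : z1 * (z * g) * v1 = v1 := b_mul hpj hpj a1 (by rw [b1]; exact l1)
  have c2 : z1 * (z * g) * v2 = v2 := b_mul hpj hpj a2 (by rw [b2]; exact l2)
  have d1 : g1 * v1 = v1 := b_mul hpj p1 a1 (by rw [b1]; exact idem p1)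
  have d2 : g2 * v2 = v2 := b_mul hpj p2 a2 (by rw [b2]; exact idem p2)
  have d1' : star v1 * g1 = star v1 := by
    have := congrArg star d1
    rwa [star_mul, sa p1] at this
  refine ⟨z1 * z, hc, ?_, ?_, v1, v2, ?_, ?_, ?_, ?_, ?_⟩
  · intro h
    apply hne
    rw [← mul_assoc, h, zero_mul]
  · rw [mul_assoc, idem hz.1]
  · rw [hgz]; exact c1
  · rw [hgz]; exact c2
  · rw [a1, mul_assoc]
  · rw [a2, mul_assoc]
  · calc star v1 * v2 = (star v1 * g1) * (g2 * v2) := by rw [d1', d2]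
      _ = star v1 * (g1 * g2) * v2 := by noncomm_ring
      _ = 0 := by rw [ho]; simp

theorem infL (hP : PSup A) (hA : PAddO A) (hZ : PZorn A) (hG : PGlue A) (hI : PInf1L A) :
    PInfL A := by
  intro g hg
  obtain ⟨ι, w, hw, hΦ, ho, -, hsup⟩ := hZ 1 cp_one (Two g) (fun z hz hz0 _ =>
    two_local hP hA hI hg z hz hz0)
  choose v1 v2 e1 e2 s1 s2 s12 using hΦ
  have hwg : ∀ i, PJ (w i * g) := fun i => cp_pj (hw i) hg.1
  have wv : ∀ i, ∀ v : A, g * w i * v = v → w i * v = v := by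
    intro i v hv
    calc w i * v = w i * (g * w i * v) := by rw [hv]
      _ = (w i * g) * (w i * v) := by noncomm_ring
      _ = g * (w i * w i) * v := by rw [(hw i).2 g]; noncomm_ring
      _ = v := by rw [idem (hw i).1, hv]
  have gv : ∀ i, ∀ v : A, g * w i * v = v → g * v = v := by
    intro i v hv
    calc g * v = g * (g * w i * v) := by rw [hv]
      _ = (g * g) * w i * v := by noncomm_ring
      _ = v := by rw [idem hg.1, hv]
  have zero_of : ∀ y : A, (∀ i, y * w i = 0) → y = 0 := fun y hy => by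
    have := hsup.2.2 y hy
    rwa [mul_one] at this
  have glue : ∀ v : ι → A, (∀ i, g * w i * v i = v i) → (∀ i, star (v i) * v i = w i * g) →
      ∃ V : A, (∀ i, w i * V = v i) ∧ ∀ i, V * w i = v i := by
    intro v hv hs
    obtain ⟨V, -, -, k1, k2⟩ := hG ι w v 1 1 (fun i => (hw i).1) ho hsup
      (fun i => wv i _ (hv i)) (fun i => by rw [← (hw i).2]; exact wv i _ (hv i))
      (fun i => norm_le_one (hwg i) (hs i))
    exact ⟨V, k1, k2⟩
  obtain ⟨V1, m1, n1⟩ := glue v1 e1 s1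
  obtain ⟨V2, m2, n2⟩ := glue v2 e2 s2
  have st : ∀ (V : A) (v : ι → A), (∀ i, w i * V = v i) → ∀ i, star V * w i = star (v i) := by
    intro V v h i
    have := congrArg star (h i)
    rwa [star_mul, sa (hw i).1] at this
  have pr : ∀ (V W : A) (v x : ι → A), (∀ i, w i * V = v i) → (∀ i, W * w i = x i) →
      (∀ i, g * w i * x i = x i) → ∀ i, star V * W * w i = star (v i) * x i := by
    intro V W v x h1 h2 h3 i
    calc star V * W * w i = star V * x i := by rw [mul_assoc, h2]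
      _ = star V * (w i * x i) := by rw [wv i _ (h3 i)]
      _ = star (v i) * x i := by rw [← mul_assoc, st V v h1 i]
  have q1 : star V1 * V1 = g := by
    rw [← sub_eq_zero]
    refine zero_of _ fun i => ?_
    rw [sub_mul, pr V1 V1 v1 v1 m1 n1 e1 i, s1, (hw i).2 g, sub_self]
  have q2 : star V2 * V2 = g := by
    rw [← sub_eq_zero]
    refine zero_of _ fun i => ?_
    rw [sub_mul, pr V2 V2 v2 v2 m2 n2 e2 i, s2, (hw i).2 g, sub_self]
  have q12 : star V1 * V2 = 0 := zero_of _ fun i => by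
    rw [pr V1 V2 v1 v2 m1 n2 e2 i, s12]
  have gV : ∀ (V : A) (v : ι → A), (∀ i, V * w i = v i) → (∀ i, g * w i * v i = v i) →
      g * V = V := by
    intro V v h1 h2
    rw [← sub_eq_zero]
    refine zero_of _ fun i => ?_
    rw [sub_mul, mul_assoc, h1, gv i _ (h2 i), sub_self]
  have g1 := gV V1 v1 n1 e1
  have g2 := gV V2 v2 n2 e2
  have g1' : star V1 * g = star V1 := by
    have := congrArg star g1
    rwa [star_mul, sa hg.1] at this
  have g2' : star V2 * g = star V2 := by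
    have := congrArg star g2
    rwa [star_mul, sa hg.1] at this
  refine ⟨V1 * star V1, V2 * star V2, final_pj hg.1 q1, final_pj hg.1 q2, ?_, ?_, ?_,
    ⟨V1, q1, rfl⟩, ⟨V2, q2, rfl⟩⟩
  · calc V1 * star V1 * (V2 * star V2) = V1 * (star V1 * V2) * star V2 := by noncomm_ring
      _ = 0 := by rw [q12]; simp
  · change V1 * star V1 * g = V1 * star V1
    rw [mul_assoc, g1']
  · change V2 * star V2 * g = V2 * star V2
    rw [mul_assoc, g2']

end

theorem t_INF2 : S_INF2.{u} := fun _ _ hP hA hZ hG hI => infL hP hA hZ hG hI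

end Pool.Agent.U139.AWQ
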